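import Pool.Agent.Lib.MP_75b31c_lc.D40.Defs

set_option autoImplicit false

/-!
# The unraveling tree of a closed set (MP_75b31c_lc, Part A, section 3.4 of E40/Paper.md)

`K = 2 * k`. A position of `clT T k C` is a triple `(q, A, o)`.
-/

namespace Pool.Agent.Lib.MP_75b31c_lc.D40

/-- Positions all of whose initial segments lie in `C`. -/
def TX (T : GT) (C : Set T.Q) : Set T.Q := {q | ∀ n, T.res n q ∈ C}

/-- `A` is a quasi-strategy of player I above `x`. -/
structure QI (T : GT) (A : Set T.Q) (x : T.Q) : Prop where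
  mem : x ∈ A
  above : ∀ q ∈ A, T.len x ≤ T.len q ∧ T.res (T.len x) q = x
  res : ∀ q ∈ A, ∀ n, T.len x ≤ n → T.res n q ∈ A
  odd : ∀ q ∈ A, T.len q % 2 = 1 → ∀ q', Child T q q' → q' ∈ A
  even : ∀ q ∈ A, T.len q % 2 = 0 → ∃ q', Child T q q' ∧ q' ∈ A

/-- `B` is a quasi-strategy of player II inside `A`, above `y`, which stays in `TX`. -/
structure QII (T : GT) (C A B : Set T.Q) (y : T.Q) : Prop where
  mem : y ∈ B
  sub : ∀ q ∈ B, q ∈ A ∧ q ∈ TX T C
  above : ∀ q ∈ B, T.len y ≤ T.len q ∧ T.res (T.len y) q = y
  res : ∀ q ∈ B, ∀ n, T.len y ≤ n → T.res n q ∈ B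
  even : ∀ q ∈ B, T.len q % 2 = 0 → ∀ q', Child T q q' → q' ∈ A → q' ∈ B
  odd : ∀ q ∈ B, T.len q % 2 = 1 → ∃ q', Child T q q' ∧ q' ∈ B

/-- The option played by II: nothing yet, `u p` (we go through `p`), `s B` (we stay in `B`). -/
inductive Opt (Q : Type) : Type
  | none : Opt Q
  | u : Q → Opt Q
  | s : Set Q → Opt Q

/-- Raw positions of the unraveling tree. -/
@[ext] structure Pos (T : GT) : Type where
  q : T.Q
  A : Set T.Q
  o : Opt T.Q

/-- Comparable positions. -/
def Compar (T : GT) (p q : T.Q) : Prop := T.res (T.len q) p = q ∨ T.res (T.len p) q = p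

/-- The valid positions. -/
structure Valid (T : GT) (K : ℕ) (C : Set T.Q) (s : Pos T) : Prop where
  low : T.len s.q ≤ K → s.A = ∅
  low' : T.len s.q ≤ K + 1 → s.o = Opt.none
  qi : K + 1 ≤ T.len s.q → QI T s.A (T.res (K + 1) s.q)
  opt : K + 2 ≤ T.len s.q →
    (∃ p, s.o = Opt.u p ∧ p ∈ s.A ∧ p ∉ TX T C ∧ T.len p % 2 = 0 ∧ K + 2 ≤ T.len p ∧ Compar T p s.q) ∨
    (∃ B, s.o = Opt.s B ∧ QII T C s.A B (T.res (K + 2) s.q) ∧ s.q ∈ B)

open Classical in
/-- Restriction of raw positions. -/
noncomputable def cut (T : GT) (K n : ℕ) (s : Pos T) : Pos T where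
  q := T.res n s.q
  A := if min n (T.len s.q) ≤ K then ∅ else s.A
  o := if min n (T.len s.q) ≤ K + 1 then Opt.none else s.o

theorem TX_res {T : GT} {C : Set T.Q} {q : T.Q} (h : q ∈ TX T C) (n : ℕ) : T.res n q ∈ TX T C := by
  intro m
  rw [T.res_res]
  exact h _

theorem child_ex (T : GT) (q : T.Q) : ∃ q', Child T q q' := T.ext q

/-- A fixed child of every position. -/
noncomputable def dflt (T : GT) (q : T.Q) : T.Q := Classical.choose (T.ext q)

theorem dflt_spec (T : GT) (q : T.Q) : Child T q (dflt T q) := Classical.choose_spec (T.ext q)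

theorem valid_cut {T : GT} {K : ℕ} {C : Set T.Q} {s : Pos T} (h : Valid T K C s) (n : ℕ) :
    Valid T K C (cut T K n s) := by
  constructor
  · intro h1
    simp only [cut, T.len_res] at h1 ⊢
    rw [if_pos h1]
  · intro h1
    simp only [cut, T.len_res] at h1 ⊢
    rw [if_pos h1]
  · intro h1
    simp only [cut, T.len_res] at h1 ⊢
    rw [if_neg (by omega), T.res_res]
    have : min (K + 1) n = K + 1 := by omega
    rw [this]
    exact h.qi (by omega)
  · intro h1
    simp only [cut, T.len_res] at h1 ⊢
    rw [if_neg (by omega), if_neg (by omega), T.res_res]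
    have e : min (K + 2) n = K + 2 := by omega
    rw [e]
    rcases h.opt (by omega) with ⟨p, h2, h3, h4, h5, h6, h7⟩ | ⟨B, h2, h3, h4⟩
    · refine Or.inl ⟨p, h2, h3, h4, h5, h6, ?_⟩
      unfold Compar at h7 ⊢
      rw [T.len_res, T.res_res]
      rcases h7 with h7 | h7
      · left
        rw [← T.res_res, h7]
      · have hl : T.len p ≤ T.len s.q := by
          have := congrArg T.len h7
          rw [T.len_res] at this
          omega
        by_cases hn : T.len p ≤ n
        · right
          rw [min_eq_left hn, h7]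
        · left
          have e1 : min n (T.len s.q) = n := by omega
          have e2 : T.res n p = T.res (min n (T.len p)) s.q := by
            rw [← T.res_res, h7]
          rw [e1, e2]
          congr 1
          omega
    · refine Or.inr ⟨B, h2, h3, h3.res _ h4 _ ?_⟩
      rw [T.len_res]
      omega

theorem cut_cut (T : GT) (K m n : ℕ) (s : Pos T) : cut T K m (cut T K n s) = cut T K (min m n) s := by
  unfold cut
  ext1
  · simp only [T.res_res]
  · simp only [T.len_res]
    split_ifs <;> first | rfl | (exfalso; omega)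
  · simp only [T.len_res]
    split_ifs <;> first | rfl | (exfalso; omega)

theorem cut_self {T : GT} {K : ℕ} {C : Set T.Q} {s : Pos T} (h : Valid T K C s) (n : ℕ)
    (hn : T.len s.q ≤ n) : cut T K n s = s := by
  unfold cut
  ext1
  · simp only [T.res_self n _ hn]
  · simp only
    split_ifs with h1
    · rw [h.low (by omega)]
    · rfl
  · simp only
    split_ifs with h1
    · rw [h.low' (by omega)]
    · rfl

/-- All positions above `x`. -/
theorem qi_above (T : GT) (x : T.Q) : QI T {q | T.len x ≤ T.len q ∧ T.res (T.len x) q = x} x where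
  mem := ⟨le_rfl, T.res_self _ _ le_rfl⟩
  above q h := h
  res q h n hn := by
    refine ⟨by rw [T.len_res]; exact le_min hn h.1, ?_⟩
    rw [T.res_res, min_eq_left hn, h.2]
  odd q h _ q' hc := by
    refine ⟨by rw [hc.1]; exact h.1.trans (Nat.le_succ _), ?_⟩
    have := h.2
    rw [← hc.2, T.res_res, min_eq_left h.1] at this
    exact this
  even q h _ := by
    obtain ⟨q', hc⟩ := T.ext q
    refine ⟨q', hc, ?_, ?_⟩
    · rw [hc.1]
      exact h.1.trans (Nat.le_succ _)
    · have := h.2
      rw [← hc.2, T.res_res, min_eq_left h.1] at this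
      exact this

theorem above_child {T : GT} {x q q' : T.Q} (h : T.len x ≤ T.len q ∧ T.res (T.len x) q = x)
    (hc : Child T q q') : T.len x ≤ T.len q' ∧ T.res (T.len x) q' = x := by
  refine ⟨by rw [hc.1]; exact h.1.trans (Nat.le_succ _), ?_⟩
  have := h.2
  rw [← hc.2, T.res_res, min_eq_left h.1] at this
  exact this

theorem TX_child {T : GT} {C : Set T.Q} {q q' : T.Q} (hc : Child T q q') (h : q' ∈ TX T C) :
    q ∈ TX T C := by
  rw [← hc.2]
  exact TX_res h _

/-- If every position of `A` above `y` is in `TX`, these positions are a quasi-strategy of II. -/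
theorem qii_above {T : GT} {C A : Set T.Q} {x y : T.Q} (hA : QI T A x) (hy : y ∈ A)
    (hxy : T.len x ≤ T.len y)
    (h : ∀ p ∈ A, T.len y ≤ T.len p → T.res (T.len y) p = y → p ∈ TX T C) :
    QII T C A {p | p ∈ A ∧ T.len y ≤ T.len p ∧ T.res (T.len y) p = y} y where
  mem := ⟨hy, le_rfl, T.res_self _ _ le_rfl⟩
  sub q hq := ⟨hq.1, h q hq.1 hq.2.1 hq.2.2⟩
  above q hq := hq.2
  res q hq n hn := by
    refine ⟨hA.res q hq.1 n (hxy.trans hn), by rw [T.len_res]; exact le_min hn hq.2.1, ?_⟩
    rw [T.res_res, min_eq_left hn, hq.2.2]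
  even q hq _ q' hc hq' := ⟨hq', above_child hq.2 hc⟩
  odd q hq ho := by
    obtain ⟨q', hc⟩ := T.ext q
    exact ⟨q', hc, hA.odd q hq.1 ho q' hc, above_child hq.2 hc⟩

theorem valid_ext {T : GT} {K : ℕ} {C : Set T.Q} (hK : K % 2 = 0) (s : Pos T)
    (h : Valid T K C s) :
    ∃ s' : Pos T, Valid T K C s' ∧ T.len s'.q = T.len s.q + 1 ∧ cut T K (T.len s.q) s' = s := by
  classical
  obtain ⟨q', hc⟩ := T.ext s.q
  rcases Nat.lt_trichotomy (T.len s.q) K with h1 | h1 | h1
  · refine ⟨⟨q', ∅, Opt.none⟩, ⟨fun _ => rfl, fun _ => rfl, fun h2 => ?_, fun h2 => ?_⟩, hc.1, ?_⟩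
    · simp only [hc.1] at h2
      omega
    · simp only [hc.1] at h2
      omega
    · unfold cut
      ext1
      · exact hc.2
      · simp only
        rw [if_pos (by omega), h.low (by omega)]
      · simp only
        rw [if_pos (by omega), h.low' (by omega)]
  · have hl : T.len q' = K + 1 := by rw [hc.1]; omega
    refine ⟨⟨q', {q | T.len q' ≤ T.len q ∧ T.res (T.len q') q = q'}, Opt.none⟩,
      ⟨fun h2 => ?_, fun _ => rfl, fun h2 => ?_, fun h2 => ?_⟩, hc.1, ?_⟩
    · simp only at h2
      omega
    · simp only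
      rw [T.res_self (K + 1) q' (by omega)]
      exact qi_above T q'
    · simp only at h2
      omega
    · unfold cut
      ext1
      · exact hc.2
      · simp only
        rw [if_pos (by omega), h.low (by omega)]
      · simp only
        rw [if_pos (by omega), h.low' (by omega)]
  · rcases Nat.eq_or_lt_of_le (Nat.succ_le_of_lt h1) with h2 | h2
    · have hq := h.qi (by omega)
      rw [T.res_self _ _ (by omega)] at hq
      have hl : T.len q' = K + 2 := by rw [hc.1]; omega
      have hq' : q' ∈ s.A := hq.odd _ hq.mem (by omega) _ hc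
      have hqq : T.res (K + 1) q' = s.q := by
        have := hc.2
        rwa [show T.len s.q = K + 1 by omega] at this
      have hqi : QI T s.A (T.res (K + 1) q') := by rw [hqq]; exact hq
      have hcut : ∀ o : Opt T.Q, cut T K (T.len s.q) ⟨q', s.A, o⟩ = s := by
        intro o
        unfold cut
        ext1
        · exact hc.2
        · simp only
          rw [if_neg (by omega)]
        · simp only
          rw [if_pos (by omega), h.low' (by omega)]
      by_cases hE : ∃ p ∈ s.A, p ∉ TX T C ∧ T.len q' ≤ T.len p ∧ T.res (T.len q') p = q'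
      · obtain ⟨p, hp, hpX, hpl, hpr⟩ := hE
        obtain ⟨p', hp', hpX', hpl', hpr', hev⟩ : ∃ p' ∈ s.A, p' ∉ TX T C ∧ T.len q' ≤ T.len p' ∧
            T.res (T.len q') p' = q' ∧ T.len p' % 2 = 0 := by
          rcases Nat.mod_two_eq_zero_or_one (T.len p) with h3 | h3
          · exact ⟨p, hp, hpX, hpl, hpr, h3⟩
          · obtain ⟨p', hcp⟩ := T.ext p
            have h4 := above_child ⟨hpl, hpr⟩ hcp
            refine ⟨p', hq.odd _ hp h3 _ hcp, fun h5 => hpX (TX_child hcp h5), h4.1, h4.2, ?_⟩
            rw [hcp.1]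
            omega
        refine ⟨⟨q', s.A, Opt.u p'⟩, ⟨fun h3 => ?_, fun h3 => ?_, fun _ => hqi, fun _ => Or.inl
          ⟨p', rfl, hp', hpX', hev, by omega, Or.inl hpr'⟩⟩, hc.1, hcut _⟩
        · simp only at h3
          omega
        · simp only at h3
          omega
      · push Not at hE
        have hB := qii_above (C := C) hq hq' (by omega) (fun p hp hpl hpr => by
          by_contra hpX
          exact hE p hp hpX hpl hpr)
        refine ⟨⟨q', s.A, Opt.s _⟩, ⟨fun h3 => ?_, fun h3 => ?_, fun _ => hqi, fun _ => Or.inr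
          ⟨_, rfl, ?_, hB.mem⟩⟩, hc.1, hcut _⟩
        · simp only at h3
          omega
        · simp only at h3
          omega
        · simp only
          rw [T.res_self (K + 2) q' (by omega)]
          exact hB
    · have hq := h.qi (by omega)
      have key : ∀ q'' : T.Q, Child T s.q q'' →
          ((∃ p, s.o = Opt.u p ∧ p ∈ s.A ∧ p ∉ TX T C ∧ T.len p % 2 = 0 ∧ K + 2 ≤ T.len p ∧
            Compar T p q'') ∨
          (∃ B, s.o = Opt.s B ∧ QII T C s.A B (T.res (K + 2) q'') ∧ q'' ∈ B)) →
          ∃ s' : Pos T, Valid T K C s' ∧ T.len s'.q = T.len s.q + 1 ∧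
            cut T K (T.len s.q) s' = s := by
        intro q'' hc' ho
        have hl := hc'.1
        refine ⟨⟨q'', s.A, s.o⟩, ⟨fun h3 => ?_, fun h3 => ?_, fun _ => ?_, fun _ => ho⟩, hc'.1, ?_⟩
        · simp only at h3
          omega
        · simp only at h3
          omega
        · have : T.res (K + 1) s.q = T.res (K + 1) q'' := by
            rw [← hc'.2, T.res_res]
            congr 1
            omega
          simp only
          rw [← this]
          exact hq
        · unfold cut
          ext1
          · exact hc'.2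
          · simp only
            rw [if_neg (by omega)]
          · simp only
            rw [if_neg (by omega)]
      rcases h.opt (by omega) with ⟨p, h3, h4, h5, h6, h7, h8⟩ | ⟨B, h3, h4, h5⟩
      · by_cases hlt : T.len s.q < T.len p
        · have hpq : T.res (T.len s.q) p = s.q := by
            rcases h8 with h8 | h8
            · exact h8
            · have := congrArg T.len h8
              rw [T.len_res] at this
              omega
          refine key (T.res (T.len s.q + 1) p) ⟨?_, ?_⟩ (Or.inl ⟨p, h3, h4, h5, h6, h7, ?_⟩)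
          · rw [T.len_res]
            omega
          · rw [T.res_res, min_eq_left (by omega), hpq]
          · left
            rw [T.len_res, min_eq_left (by omega)]
        · refine key q' hc (Or.inl ⟨p, h3, h4, h5, h6, h7, ?_⟩)
          have hpq : T.res (T.len p) s.q = p := by
            rcases h8 with h8 | h8
            · have := congrArg T.len h8
              rw [T.len_res] at this
              have e : T.len s.q = T.len p := by omega
              rw [← e]
              rw [e, T.res_self _ _ le_rfl] at h8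
              rw [h8]
              exact T.res_self _ _ (by rw [← h8])
            · exact h8
          right
          have e2 : T.res (T.len p) s.q = T.res (T.len p) q' := by
            rw [← hc.2, T.res_res]
            congr 1
            omega
          rw [← e2]
          exact hpq
      · have hr : ∀ q'' : T.Q, Child T s.q q'' → T.res (K + 2) s.q = T.res (K + 2) q'' := by
          intro q'' hc'
          rw [← hc'.2, T.res_res]
          congr 1
          have := hc'.1
          omega
        rcases Nat.mod_two_eq_zero_or_one (T.len s.q) with h6 | h6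
        · obtain ⟨q'', hc', hA⟩ := hq.even _ (h4.sub _ h5).1 h6
          refine key q'' hc' (Or.inr ⟨B, h3, ?_, h4.even _ h5 h6 _ hc' hA⟩)
          rw [← hr _ hc']
          exact h4
        · obtain ⟨q'', hc', hB⟩ := h4.odd _ h5 h6
          refine key q'' hc' (Or.inr ⟨B, h3, ?_, hB⟩)
          rw [← hr _ hc']
          exact h4

/-- The unraveling tree of the closed set given by `C`, fixed up to length `2 * k`. -/
noncomputable def clT (T : GT) (k : ℕ) (C : Set T.Q) : GT where
  Q := {s : Pos T // Valid T (2 * k) C s}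
  len s := T.len s.1.q
  res n s := ⟨cut T (2 * k) n s.1, valid_cut s.2 n⟩
  len_res n s := T.len_res n s.1.q
  res_res m n s := Subtype.ext (cut_cut T (2 * k) m n s.1)
  res_self n s h := Subtype.ext (cut_self s.2 n h)
  root_uniq s s' h h' := by
    apply Subtype.ext
    ext1
    · exact T.root_uniq _ _ h h'
    · rw [s.2.low (by omega), s'.2.low (by omega)]
    · rw [s.2.low' (by omega), s'.2.low' (by omega)]
  root_ex := by
    obtain ⟨q, hq⟩ := T.root_ex
    refine ⟨⟨⟨q, ∅, Opt.none⟩, ⟨fun _ => rfl, fun _ => rfl, fun h => ?_, fun h => ?_⟩⟩, hq⟩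
    · simp only at h
      omega
    · simp only at h
      omega
  ext s := by
    obtain ⟨s', h1, h2, h3⟩ := valid_ext (Nat.mul_mod_right 2 k) s.1 s.2
    exact ⟨⟨s', h1⟩, h2, Subtype.ext h3⟩

/-- The projection. -/
noncomputable def clP (T : GT) (k : ℕ) (C : Set T.Q) : Mor (clT T k C) T where
  f s := s.1.q
  len_f _ := rfl
  res_f _ _ := rfl

end Pool.Agent.Lib.MP_75b31c_lc.D40
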