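import Mathlib

set_option autoImplicit false

/-!
# Games on trees: definitions for Borel determinacy (MP_75b31c_lc, Part A)

A tree is a type of positions with a length and a restriction map. `res n q` is the initial segment
of length `min n (len q)` of `q`. Player `false` (I) moves at positions of even length, player `true`
(II) at positions of odd length.
-/

namespace Pool.Agent.Lib.MP_75b31c_lc.D40

structure GT where
  Q : Type
  len : Q → ℕ
  res : ℕ → Q → Q
  len_res : ∀ n q, len (res n q) = min n (len q)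
  res_res : ∀ m n q, res m (res n q) = res (min m n) q
  res_self : ∀ n q, len q ≤ n → res n q = q
  root_uniq : ∀ q q', len q = 0 → len q' = 0 → q = q'
  root_ex : ∃ q, len q = 0
  ext : ∀ q, ∃ q', len q' = len q + 1 ∧ res (len q) q' = q

/-- `q'` is a child of `q`: the position reached from `q` by one move. -/
def Child (T : GT) (q q' : T.Q) : Prop := T.len q' = T.len q + 1 ∧ T.res (T.len q) q' = q

/-- An infinite play. -/
def Branch (T : GT) (x : ℕ → T.Q) : Prop := ∀ n, T.len (x n) = n ∧ T.res n (x (n + 1)) = x n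

/-- A strategy chooses a child of every position (only the positions of one player matter). -/
def IsStrat (T : GT) (σ : T.Q → T.Q) : Prop := ∀ q, Child T q (σ q)

/-- `len q` has the parity of player `j`. -/
def Turn (j : Bool) (n : ℕ) : Prop := n % 2 = j.toNat

/-- The play `x` is consistent with the strategy `σ` of player `j`. -/
def Cons (T : GT) (j : Bool) (σ : T.Q → T.Q) (x : ℕ → T.Q) : Prop :=
  ∀ n, Turn j n → x (n + 1) = σ (x n)

/-- The game with payoff `W` for player I is determined. -/
def Determined (T : GT) (W : Set (ℕ → T.Q)) : Prop :=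
  (∃ σ, IsStrat T σ ∧ ∀ x, Branch T x → Cons T false σ x → x ∈ W) ∨
    (∃ τ, IsStrat T τ ∧ ∀ x, Branch T x → Cons T true τ x → x ∉ W)

/-- `W` is decided at a fixed finite stage. -/
def IsFin (T : GT) (W : Set (ℕ → T.Q)) : Prop :=
  ∃ (m : ℕ) (S : Set T.Q), ∀ x, Branch T x → (x ∈ W ↔ x m ∈ S)

/-- A morphism of trees. -/
structure Mor (S T : GT) where
  f : S.Q → T.Q
  len_f : ∀ q, T.len (f q) = S.len q
  res_f : ∀ n q, T.res n (f q) = f (S.res n q)

/-- A covering of `T` by `S`. -/
structure Cov (S T : GT) where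
  p : Mor S T
  φ : Bool → (S.Q → S.Q) → (T.Q → T.Q)
  strat : ∀ j σ, IsStrat S σ → IsStrat T (φ j σ)
  lift : ∀ j σ, IsStrat S σ → ∀ x, Branch T x → Cons T j (φ j σ) x →
    ∃ y, Branch S y ∧ Cons S j σ y ∧ ∀ n, p.f (y n) = x n
  loc : ∀ j σ σ' m, IsStrat S σ → IsStrat S σ' →
    (∀ q, S.len q < m → Turn j (S.len q) → σ q = σ' q) →
    ∀ q, T.len q < m → Turn j (T.len q) → φ j σ q = φ j σ' q

/-- The covering does not change anything up to length `m`. -/
def Fix {S T : GT} (m : ℕ) (c : Cov S T) : Prop :=
  (∀ q q', S.len q ≤ m → S.len q' ≤ m → c.p.f q = c.p.f q' → q = q') ∧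
  (∀ p, T.len p ≤ m → ∃ q, c.p.f q = p) ∧
  (∀ j σ q, IsStrat S σ → S.len q < m → Turn j (S.len q) → c.φ j σ (c.p.f q) = c.p.f (σ q))

/-- `W` can be unraveled by a covering which is the identity up to length `2 * k`. -/
def Unrav (T : GT) (k : ℕ) (W : Set (ℕ → T.Q)) : Prop :=
  ∃ (S : GT) (c : Cov S T), Fix (2 * k) c ∧ IsFin S {y | (fun n => c.p.f (y n)) ∈ W}

/-- The tree of all finite binary sequences. -/
def bin : GT where
  Q := List Bool
  len := List.length
  res := List.take
  len_res n q := by simp
  res_res m n q := by simp [List.take_take]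
  res_self n q h := List.take_of_length_le h
  root_uniq q q' h h' := by rw [List.length_eq_zero_iff.1 h, List.length_eq_zero_iff.1 h']
  root_ex := ⟨[], rfl⟩
  ext q := ⟨q ++ [false], by simp, by simp⟩

/-- The infinite binary sequence of a play in `bin`. -/
def seqOf (x : ℕ → List Bool) : ℕ → Bool := fun n => (x (n + 1)).getD n false

end Pool.Agent.Lib.MP_75b31c_lc.D40
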