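import Pool.Agent.Lib.MP_75b31c_lc.D40.Closed

set_option autoImplicit false

/-!
# Borel determinacy: statements of the modules (MP_75b31c_lc, Part A, section 3 of E40/Paper.md)

Each module `XXX` proves `theorem xxx (hypotheses : other statements) : XXX_S`.
-/

namespace Pool.Agent.Lib.MP_75b31c_lc.D40

/-- FIN: a game whose payoff is decided at a fixed finite stage `m` is determined.
Hint: backward induction; for `i ≤ m` and a position `q` of length `m - i`: either I has a strategy from `q`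
or II has. Claim by induction on `i` for every `q` with `len q + i = m`: there is `j : Bool` and a strategy `σ` such that
every branch through `q` consistent with `σ` after `q` for player `j` has `x m ∈ S` (`j = false`) or `x m ∉ S` (`j = true`).
At a position of the opponent combine the strategies of the children: `ρ p = ρ_{res (len q + 1) p} p`. -/
def FIN_S : Prop := ∀ (T : GT) (W : Set (ℕ → T.Q)), IsFin T W → Determined T W

/-- TRANS: determinacy is transferred down a covering. -/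
def TRANS_S : Prop := ∀ (S T : GT) (c : Cov S T) (W : Set (ℕ → T.Q)),
  Determined S {y | (fun n => c.p.f (y n)) ∈ W} → Determined T W

/-- COMP: coverings compose, `Fix m` is preserved. -/
def COMP_S : Prop := ∀ (S T U : GT) (c : Cov S T) (d : Cov T U),
  ∃ e : Cov S U, (∀ q, e.p.f q = d.p.f (c.p.f q)) ∧ ∀ m, Fix m c → Fix m d → Fix m e

/-- Player `j`, who must stay in `A` with the own moves, can force the play into `G`. -/
inductive Force (T : GT) (j : Bool) (A G : Set T.Q) : T.Q → Prop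
  | base (q : T.Q) : q ∈ G → Force T j A G q
  | mine (q q' : T.Q) : Turn j (T.len q) → Child T q q' → q' ∈ A → Force T j A G q' → Force T j A G q
  | yours (q : T.Q) : ¬ Turn j (T.len q) → (∀ q', Child T q q' → Force T j A G q') → Force T j A G q

/-- The strategy `ρ` of player `j` reaches `G` from `q`, with own moves in `A` before. -/
def Reaches (T : GT) (j : Bool) (A G : Set T.Q) (q : T.Q) (ρ : T.Q → T.Q) : Prop :=
  IsStrat T ρ ∧ ∀ x, Branch T x → x (T.len q) = q →
    (∀ n, T.len q ≤ n → Turn j n → (∀ i, T.len q ≤ i → i ≤ n → x i ∉ G) → x (n + 1) = ρ (x n)) →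
    ∃ n, T.len q ≤ n ∧ x n ∈ G ∧ ∀ i, T.len q ≤ i → i < n → Turn j i → x (i + 1) ∈ A

/-- REACH: induction on `Force`. -/
def REACH_S : Prop := ∀ (T : GT) (j : Bool) (A G : Set T.Q) (q : T.Q), Force T j A G q →
  ∃ ρ : T.Q → T.Q, Reaches T j A G q ρ

/-! ### Inverse limits (3.3) -/

/-- An inverse system of coverings. -/
structure Sys where
  T : ℕ → GT
  c : ∀ n, Cov (T (n + 1)) (T n)
  k : ℕ
  fix : ∀ n, Fix (2 * (k + n)) (c n)

/-- `S` with the morphisms `r n` is the inverse limit of `D`. -/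
structure IsLim (D : Sys) (S : GT) (r : ∀ n, Mor S (D.T n)) : Prop where
  comm : ∀ n q, (D.c n).p.f ((r (n + 1)).f q) = (r n).f q
  inj : ∀ J q q', S.len q ≤ 2 * (D.k + J) → (r J).f q = (r J).f q' → q = q'
  surj : ∀ J p, (D.T J).len p ≤ 2 * (D.k + J) → ∃ q, (r J).f q = p
  glue : ∀ y : ∀ n, (D.T n).Q, (∀ n, (D.c n).p.f (y (n + 1)) = y n) → ∃ q, ∀ n, (r n).f q = y n

/-- THR: the tree of threads. `S.Q = {f : ∀ n, (D.T n).Q // ∀ n, (D.c n).p.f (f (n+1)) = f n}`, length of `f 0`,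
restriction componentwise. `surj`: a general lemma about inverse systems of types (induction on `J`, shifting the system). -/
def THR_S : Prop := ∀ D : Sys, ∃ (S : GT) (r : ∀ n, Mor S (D.T n)), IsLim D S r

/-- LIMC: the covering of `T 0` by the inverse limit (strategy transfer `B`, see 3.3). -/
def LIMC_S : Prop := ∀ (D : Sys) (S : GT) (r : ∀ n, Mor S (D.T n)), IsLim D S r →
  ∃ e : Cov S (D.T 0), Fix (2 * D.k) e ∧ ∀ q, e.p.f q = (r 0).f q

/-! ### Closed sets (3.4) -/

open Classical in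
/-- The move of `σ` at the raw position `s` (junk if `s` is not valid). -/
noncomputable def mv (T : GT) (k : ℕ) (C : Set T.Q) (σ : (clT T k C).Q → (clT T k C).Q) (s : Pos T) :
    Pos T :=
  if h : Valid T (2 * k) C s then (σ ⟨s, h⟩).1 else ⟨dflt T s.q, s.A, s.o⟩

open Classical in
/-- A strategy which reaches `G` from `q` if there is one. -/
noncomputable def rho (T : GT) (j : Bool) (A G : Set T.Q) (q : T.Q) : T.Q → T.Q :=
  if h : ∃ ρ, Reaches T j A G q ρ then Classical.choose h else dflt T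

/-- `res n q` is in the forcing set for some `n` with `m ≤ n ≤ len q`. -/
def Hit (T : GT) (m : ℕ) (j : Bool) (A G : Set T.Q) (q : T.Q) : Prop :=
  ∃ n, m ≤ n ∧ n ≤ T.len q ∧ Force T j A G (T.res n q)

/-- The first such restriction. -/
noncomputable def hitPt (T : GT) (m : ℕ) (j : Bool) (A G : Set T.Q) (q : T.Q) : T.Q :=
  T.res (sInf {n | m ≤ n ∧ n ≤ T.len q ∧ Force T j A G (T.res n q)}) q

/-- `B0`: the positions of `A` above `y` (of length at least `m = len y`) which avoid the forcing set. -/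
def avoid (T : GT) (m : ℕ) (j : Bool) (A A' G : Set T.Q) (y : T.Q) : Set T.Q :=
  {q | q ∈ A ∧ m ≤ T.len q ∧ T.res m q = y ∧ ¬ Hit T m j A' G q}

open Classical in
/-- The strategy transfer for player I. `a = (x, A, none)` is the move of `σ` at length `2 * k`. -/
noncomputable def phiI (T : GT) (k : ℕ) (C : Set T.Q) (σ : (clT T k C).Q → (clT T k C).Q) (q : T.Q) :
    T.Q :=
  if T.len q ≤ 2 * k then (mv T k C σ ⟨q, ∅, Opt.none⟩).q else
  let a := mv T k C σ ⟨T.res (2 * k) q, ∅, Opt.none⟩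
  if ¬ (T.res (2 * k + 1) q = a.q ∧ T.len q % 2 = 0) then dflt T q else
  if q ∉ TX T C then
    (mv T k C σ ⟨q, a.A,
      Opt.u (T.res (sInf {n | 2 * k + 2 ≤ n ∧ n % 2 = 0 ∧ T.res n q ∉ TX T C}) q)⟩).q
  else if Hit T (2 * k + 2) false a.A (TX T C)ᶜ q then
    rho T false a.A (TX T C)ᶜ (hitPt T (2 * k + 2) false a.A (TX T C)ᶜ q) q
  else
    (mv T k C σ ⟨q, a.A,
      Opt.s (avoid T (2 * k + 2) false a.A a.A (TX T C)ᶜ (T.res (2 * k + 2) q))⟩).q

/-- The pairs `(A, p)` such that `σ` answers `(x, A, none)` with the option `u p`. -/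
def UA (T : GT) (k : ℕ) (C : Set T.Q) (σ : (clT T k C).Q → (clT T k C).Q) (x : T.Q) (A : Set T.Q)
    (p : T.Q) : Prop :=
  Valid T (2 * k) C ⟨x, A, Opt.none⟩ ∧ (mv T k C σ ⟨x, A, Opt.none⟩).o = Opt.u p

/-- The set `U` of section 3.4 (transfer for II). -/
def US (T : GT) (k : ℕ) (C : Set T.Q) (σ : (clT T k C).Q → (clT T k C).Q) (x : T.Q) : Set T.Q :=
  {p | ∃ A, UA T k C σ x A p}

open Classical in
/-- A witness `A` for `p ∈ U`. -/
noncomputable def wit (T : GT) (k : ℕ) (C : Set T.Q) (σ : (clT T k C).Q → (clT T k C).Q) (x p : T.Q) :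
    Set T.Q :=
  if h : ∃ A, UA T k C σ x A p then Classical.choose h else ∅

open Classical in
/-- The strategy transfer for player II. -/
noncomputable def phiII (T : GT) (k : ℕ) (C : Set T.Q) (σ : (clT T k C).Q → (clT T k C).Q) (q : T.Q) :
    T.Q :=
  if T.len q ≤ 2 * k then (mv T k C σ ⟨q, ∅, Opt.none⟩).q else
  let x := T.res (2 * k + 1) q
  let U := US T k C σ x
  if ∃ n, n ≤ T.len q ∧ T.res n q ∈ U then
    let p := T.res (sInf {n | n ≤ T.len q ∧ T.res n q ∈ U}) q
    (mv T k C σ ⟨q, wit T k C σ x p, Opt.u p⟩).q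
  else if Hit T (2 * k + 1) true Set.univ U q then
    rho T true Set.univ U (hitPt T (2 * k + 1) true Set.univ U q) q
  else
    let A' := avoid T (2 * k + 1) true Set.univ Set.univ U x
    if T.len q = 2 * k + 1 then (mv T k C σ ⟨q, A', Opt.none⟩).q
    else (mv T k C σ ⟨q, A', (mv T k C σ ⟨x, A', Opt.none⟩).o⟩).q

/-- Both transfers. -/
noncomputable def phi (T : GT) (k : ℕ) (C : Set T.Q) (j : Bool)
    (σ : (clT T k C).Q → (clT T k C).Q) : T.Q → T.Q :=
  if j then phiII T k C σ else phiI T k C σ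

/-- CLPAY: the payoff is decided at length `2 * k + 2` (it is `o = s B`). -/
def CLPAY_S : Prop := ∀ (T : GT) (k : ℕ) (C : Set T.Q),
  IsFin (clT T k C) {y | (fun n => (clP T k C).f (y n)) ∈ {x : ℕ → T.Q | ∀ n, x n ∈ C}}

/-- CLSTR: the transferred strategies are strategies. -/
def CLSTR_S : Prop := ∀ (T : GT) (k : ℕ) (C : Set T.Q) (j : Bool) (σ : (clT T k C).Q → (clT T k C).Q),
  IsStrat (clT T k C) σ → IsStrat T (phi T k C j σ)

/-- The lifting property for player `j`. -/
def Lifts (T : GT) (k : ℕ) (C : Set T.Q) (j : Bool) : Prop :=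
  ∀ σ, IsStrat (clT T k C) σ → ∀ x, Branch T x → Cons T j (phi T k C j σ) x →
    ∃ y, Branch (clT T k C) y ∧ Cons (clT T k C) j σ y ∧ ∀ n, (clP T k C).f (y n) = x n

/-- CLLI1: lifting for I, if the play stays in `C`. Then no `x n` is in the forcing set, all `x n` (`n ≥ 2k+2`) are in
`B0`, and `y n = (x n, A, s B0)`. -/
def CLLI1_S : Prop := REACH_S → ∀ (T : GT) (k : ℕ) (C : Set T.Q) (σ : (clT T k C).Q → (clT T k C).Q),
  IsStrat (clT T k C) σ → ∀ x, Branch T x → Cons T false (phiI T k C σ) x → (∀ n, x n ∈ TX T C) →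
    ∃ y, Branch (clT T k C) y ∧ Cons (clT T k C) false σ y ∧ ∀ n, (clP T k C).f (y n) = x n

/-- CLLI2: lifting for I, if the play leaves `C`. `n₀` = least even number `≥ 2k+2` with `x n₀ ∉ TX`, `p = x n₀`;
up to `n₀` all `x n` are in `A`; `y n = (x n, A, u p)`. -/
def CLLI2_S : Prop := REACH_S → ∀ (T : GT) (k : ℕ) (C : Set T.Q) (σ : (clT T k C).Q → (clT T k C).Q),
  IsStrat (clT T k C) σ → ∀ x, Branch T x → Cons T false (phiI T k C σ) x → (∃ n, x n ∉ TX T C) →
    ∃ y, Branch (clT T k C) y ∧ Cons (clT T k C) false σ y ∧ ∀ n, (clP T k C).f (y n) = x n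

/-- CLLII1: lifting for II, if some `x n` is in `U`: `n₀` the least, `p = x n₀`, `y n = (x n, wit p, u p)`. -/
def CLLII1_S : Prop := REACH_S → ∀ (T : GT) (k : ℕ) (C : Set T.Q) (σ : (clT T k C).Q → (clT T k C).Q),
  IsStrat (clT T k C) σ → ∀ x, Branch T x → Cons T true (phiII T k C σ) x →
    (∃ n, x n ∈ US T k C σ (x (2 * k + 1))) →
    ∃ y, Branch (clT T k C) y ∧ Cons (clT T k C) true σ y ∧ ∀ n, (clP T k C).f (y n) = x n

/-- CLLII2: lifting for II, if no `x n` is in `U`: `y n = (x n, A', s B)`. -/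
def CLLII2_S : Prop := REACH_S → ∀ (T : GT) (k : ℕ) (C : Set T.Q) (σ : (clT T k C).Q → (clT T k C).Q),
  IsStrat (clT T k C) σ → ∀ x, Branch T x → Cons T true (phiII T k C σ) x →
    (∀ n, x n ∉ US T k C σ (x (2 * k + 1))) →
    ∃ y, Branch (clT T k C) y ∧ Cons (clT T k C) true σ y ∧ ∀ n, (clP T k C).f (y n) = x n

/-- CLLOC: locality of the transfers. -/
def CLLOC_S : Prop := ∀ (T : GT) (k : ℕ) (C : Set T.Q) (j : Bool)
  (σ σ' : (clT T k C).Q → (clT T k C).Q) (m : ℕ),
  IsStrat (clT T k C) σ → IsStrat (clT T k C) σ' →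
    (∀ q, (clT T k C).len q < m → Turn j ((clT T k C).len q) → σ q = σ' q) →
    ∀ q, T.len q < m → Turn j (T.len q) → phi T k C j σ q = phi T k C j σ' q

/-- CLOSED: closed sets can be unraveled. -/
def CLOSED_S : Prop := ∀ (T : GT) (k : ℕ) (C : Set T.Q), Unrav T k {x | ∀ n, x n ∈ C}

/-- CLASM: assembly of the closed case. -/
def CLASM_S : Prop := CLPAY_S → CLSTR_S → (∀ T k C j, Lifts T k C j) → CLLOC_S → CLOSED_S

/-! ### Borel sets (3.5) -/

/-- Every preimage of `X` under a morphism can be unraveled. -/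
def PU (T : GT) (X : Set (ℕ → T.Q)) : Prop :=
  ∀ (T' : GT) (ψ : Mor T' T) (k : ℕ), Unrav T' k {y | (fun n => ψ.f (y n)) ∈ X}

/-- PUN: countable unions. -/
def PUN_S : Prop := COMP_S → THR_S → LIMC_S → CLOSED_S →
  ∀ (T : GT) (X : ℕ → Set (ℕ → T.Q)), (∀ n, PU T (X n)) → PU T (⋃ n, X n)

/-- PUC: complements, and sets decided at a finite stage (use the identity covering). -/
def PUC_S : Prop := (∀ (T : GT) (X : Set (ℕ → T.Q)), PU T X → PU T Xᶜ) ∧
  (∀ (T : GT) (X : Set (ℕ → T.Q)), IsFin T X → PU T X)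

/-- The conclusion. -/
def BD_S : Prop := ∀ (C : Set (ℕ → Bool)), MeasurableSet C →
  (∃ σ : List Bool → Bool, ∀ z : ℕ → Bool,
    (∀ n, n % 2 = 0 → z n = σ ((List.range n).map z)) → z ∈ C) ∨
  (∃ τ : List Bool → Bool, ∀ z : ℕ → Bool,
    (∀ n, n % 2 = 1 → z n = τ ((List.range n).map z)) → z ∉ C)

/-- SIG: the sigma-algebra induction for the tree `bin`. -/
def SIG_S : Prop := PUC_S →
  (∀ (T : GT) (X : ℕ → Set (ℕ → T.Q)), (∀ n, PU T (X n)) → PU T (⋃ n, X n)) →
  ∀ C : Set (ℕ → Bool), MeasurableSet C → PU bin {x | seqOf x ∈ C}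

/-- BD: the end of the proof. -/
def BDF_S : Prop := FIN_S → TRANS_S →
  (∀ C : Set (ℕ → Bool), MeasurableSet C → PU bin {x | seqOf x ∈ C}) → BD_S

end Pool.Agent.Lib.MP_75b31c_lc.D40
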